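import Pool.Agent.Helper16.SL.Units
import Pool.Agent.Helper64.GS.Scale

/-!
# Points with bounded counting function, general dimension and degree

For `y` of degree `r` over `k` with bounded counting function the norms of the `ℓ i (y) / ℓ 0 (y)` are `T`-units, with `T`
independent of `y`.
-/

set_option autoImplicit false

namespace Pool.Agent.Helper64.GH

open NumberField IntermediateField Pool.Agent.Helper64.Vojta Pool.Agent.VZ Pool.Agent.SL

universe u

variable {k : Type u} [Field k] [NumberField k]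

theorem main_ineq (S : Finset (Pl k)) {n q : ℕ} (r : ℕ) (ℓ : Fin q → Fin (n + 1) → k) (C : ℝ) :
    ∃ N : ℕ, N ≠ 0 ∧ ∀ y : Fin n → AlgebraicClosure k, dg y ≤ r →
      (∀ i, ev (cst (ℓ i)) (crd y) ≠ 0) → q * hgt y - C ≤ lam ℓ S y →
      ∀ w : FinitePlace (fld y), w (N : fld y) = 1 → ∀ i,
        nv (.inr w) (ev (cst (ℓ i)) (crd y)) = sn (.inr w) (crd y) := by
  classical
  obtain ⟨D, hD0, hD⟩ := exists_den (Finset.univ.image fun p : Fin q × Fin (n + 1) => ℓ p.1 p.2)
  choose B hB0 hB using fun i => liouville_k.{u, u} (ℓ i) r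
  set K : ℝ := r * |C| + (∑ i, B i) * (2 + r * S.card) with hK
  refine ⟨D * (∏ ν ∈ S, npl ν) * (⌈Real.exp K⌉₊).factorial, ?_, ?_⟩
  · exact mul_ne_zero (mul_ne_zero hD0 (Finset.prod_ne_zero_iff.mpr fun ν _ => npl_ne_zero ν))
      (Nat.factorial_ne_zero _)
  intro y hdg hne hy w hw i
  set x := crd y with hx
  have hx0 : x ≠ 0 := crd_ne y
  have hwD : w (D : fld y) = 1 := one_of_dvd w ⟨(∏ ν ∈ S, npl ν) * (⌈Real.exp K⌉₊).factorial, by ring⟩ hw
  have hwS : ∀ ν ∈ S, w (npl ν : fld y) = 1 := fun ν hν =>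
    one_of_dvd w (Dvd.dvd.mul_right (Dvd.dvd.mul_left (Finset.dvd_prod_of_mem _ hν) _) _) hw
  have hwF : w (((⌈Real.exp K⌉₊).factorial : ℕ) : fld y) = 1 := one_of_dvd w (Dvd.intro_left _ rfl) hw
  have habs : Real.exp K < Ideal.absNorm w.maximalIdeal.asIdeal := by
    by_contra hcon
    push Not at hcon
    have h1 : Ideal.absNorm w.maximalIdeal.asIdeal ≤ ⌈Real.exp K⌉₊ := by
      exact_mod_cast hcon.trans (Nat.le_ceil _)
    have h2 : 0 < Ideal.absNorm w.maximalIdeal.asIdeal :=
      zero_lt_one.trans (NumberField.HeightOneSpectrum.one_lt_absNorm w.maximalIdeal)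
    have h3 := one_of_dvd w (Nat.dvd_factorial h2 h1) hwF
    have h4 := absNorm_lt_one w
    linarith
  -- the coefficients are integral at `w`
  have hcoef : ∀ i j, nv (.inr w) (algebraMap k (fld y) (ℓ i j)) ≤ 1 := by
    intro i j
    have h1 := hD (ℓ i j) (Finset.mem_image.mpr ⟨(i, j), Finset.mem_univ _, rfl⟩)
    have h2 := map_isIntegral_int (algebraMap k (fld y)) h1
    have h3 := nv_int_le_one w ⟨_, h2⟩
    simpa [nv, hwD] using h3
  have hle : ∀ i, nv (.inr w) (ev (cst (ℓ i)) x) ≤ sn (.inr w) x := by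
    intro i
    refine nv_sum_le_inr w Finset.univ _ _ (sn_pos _ hx0).le fun j _ => ?_
    rw [nv_mul]
    calc _ ≤ 1 * sn (.inr w) x := mul_le_mul (hcoef i j) (le_sn _ _ _) (nv_nonneg _ _) zero_le_one
      _ = _ := one_mul _
  have hloc0 : ∀ i, 0 ≤ loc (.inr w) (cst (ℓ i)) x := fun i =>
    sub_nonneg.mpr (Real.log_le_log (nv_pos _ (hne i)) (hle i))
  -- the places
  set W₀ := S.biUnion (above (fld y)) with hW₀
  have hwW : (Sum.inr w : Pl (fld y)) ∉ W₀ := by
    intro h
    obtain ⟨ν, hν, hν'⟩ := Finset.mem_biUnion.mp h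
    exact not_above ν w (hwS ν hν) (mem_above.mp hν')
  have hfin : FiniteDimensional k (fld y) :=
    finiteDimensional_adjoin fun x _ => Algebra.IsIntegral.isIntegral x
  have hcard : (insert (Sum.inr w) W₀).card ≤ 1 + r * S.card := by
    refine (Finset.card_insert_le _ _).trans ?_
    have h1 : W₀.card ≤ ∑ ν ∈ S, (above (fld y) ν).card := Finset.card_biUnion_le
    have h2 : ∑ ν ∈ S, (above (fld y) ν).card ≤ ∑ ν ∈ S, r :=
      Finset.sum_le_sum fun ν _ => (card_above_le ν).trans hdg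
    rw [Finset.sum_const, smul_eq_mul, mul_comm] at h2
    omega
  have hcardR : ((insert (Sum.inr w) W₀).card : ℝ) ≤ 1 + r * S.card := by exact_mod_cast hcard
  have hdgp := dg_pos' y
  have hdg2 : (dg y : ℝ) ≤ r := by exact_mod_cast hdg
  have hsum : ∀ i, ∑ w' ∈ insert (Sum.inr w) W₀, loc w' (cst (ℓ i)) x ≤
      dg y * hgt y + B i * (2 + r * S.card) := by
    intro i
    have h1 := hB i (fld y) hdg x hx0 (hne i) (insert (Sum.inr w) W₀)
    have h2 : B i * (1 + (insert (Sum.inr w) W₀).card) ≤ B i * (2 + r * S.card) :=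
      mul_le_mul_of_nonneg_left (by linarith) (hB0 i)
    have h3 : (dg y : ℝ) * hgt y = Height.logHeight x := by
      unfold hgt
      rw [mul_div_cancel₀ _ hdgp.ne']
    linarith
  have hdisj : (S : Set (Pl k)).PairwiseDisjoint (above (fld y)) := by
    intro a _ b _ hab
    rw [Function.onFun, Finset.disjoint_left]
    intro w hwa hwb
    exact hab (above_unique (mem_above.mp hwa) (mem_above.mp hwb))
  have hlam : (dg y : ℝ) * lam ℓ S y = ∑ i, ∑ w' ∈ W₀, loc w' (cst (ℓ i)) x := by
    unfold lam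
    rw [mul_div_cancel₀ _ hdgp.ne', Finset.sum_comm (s := Finset.univ), Finset.sum_biUnion hdisj]
    rfl
  have htot : ∑ i, (loc (.inr w) (cst (ℓ i)) x + ∑ w' ∈ W₀, loc w' (cst (ℓ i)) x) ≤
      q * (dg y * hgt y) + (∑ i, B i) * (2 + r * S.card) := by
    have h1 : ∑ i, (loc (.inr w) (cst (ℓ i)) x + ∑ w' ∈ W₀, loc w' (cst (ℓ i)) x) ≤
        ∑ i : Fin q, (dg y * hgt y + B i * (2 + r * S.card)) :=
      Finset.sum_le_sum fun i _ =>
        (Finset.sum_insert (f := fun w' => loc w' (cst (ℓ i)) x) hwW).symm.le.trans (hsum i)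
    refine h1.trans (le_of_eq ?_)
    rw [Finset.sum_add_distrib, Finset.sum_const, Finset.card_univ, Fintype.card_fin, nsmul_eq_mul,
      ← Finset.sum_mul]
  rw [Finset.sum_add_distrib, ← hlam] at htot
  have hlocsum : ∑ i, loc (.inr w) (cst (ℓ i)) x ≤ K := by
    have h1 : (dg y : ℝ) * (q * hgt y - C) ≤ dg y * lam ℓ S y := mul_le_mul_of_nonneg_left hy hdgp.le
    have h2 : (dg y : ℝ) * C ≤ r * |C| :=
      (mul_le_mul_of_nonneg_left (le_abs_self C) hdgp.le).trans
        (mul_le_mul_of_nonneg_right hdg2 (abs_nonneg C))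
    rw [hK]
    nlinarith
  have hloci : loc (.inr w) (cst (ℓ i)) x ≤ K :=
    (Finset.single_le_sum (fun i _ => hloc0 i) (Finset.mem_univ i)).trans hlocsum
  refine le_antisymm (hle i) ?_
  refine sn_le _ _ _ (nv_nonneg _ _) fun j => ?_
  by_contra hcon
  push Not at hcon
  have h1 : 1 < w (x j / ev (cst (ℓ i)) x) := by
    rw [map_div₀]
    exact (one_lt_div (nv_pos (.inr w) (hne i))).mpr hcon
  have h2 := absNorm_le w _ h1
  rw [map_div₀] at h2
  have hxj : 0 < w (x j) := lt_of_le_of_lt (apply_nonneg w _) hcon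
  have h3 : Real.log (w (x j) / w (ev (cst (ℓ i)) x)) ≤ loc (.inr w) (cst (ℓ i)) x := by
    have h5 : w (ev (cst (ℓ i)) x) ≠ 0 := (nv_pos (.inr w) (hne i)).ne'
    rw [Real.log_div hxj.ne' h5]
    exact sub_le_sub_right (Real.log_le_log hxj (le_sn (.inr w) x j)) _
  have h4 : K < Real.log (w (x j) / w (ev (cst (ℓ i)) x)) := by
    rw [Real.lt_log_iff_exp_lt (lt_of_lt_of_le (Real.exp_pos K) (habs.le.trans h2))]
    exact lt_of_lt_of_le habs h2
  linarith

/-- norms of `N`-integral elements -/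
theorem norm_le {L : Type*} [Field L] [NumberField L] [Algebra k L] {N : ℕ} {z : L} (h : TI N z)
    (v : FinitePlace k) (hv : v (N : k) = 1) : v (Algebra.norm k z) ≤ 1 := by
  have : FiniteDimensional k L := FiniteDimensional.right ℚ k L
  obtain ⟨m, hm⟩ := h
  have h1 : IsIntegral ℤ (Algebra.norm k ((N : L) ^ m * z)) := Algebra.isIntegral_norm k hm
  rw [map_mul, map_pow] at h1
  have h2 : Algebra.norm k (N : L) = (N : k) ^ Module.finrank k L := by
    have := Algebra.norm_algebraMap (R := k) (S := L) (N : k)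
    rwa [map_natCast] at this
  rw [h2, ← pow_mul] at h1
  exact TI.places ⟨_, h1⟩ v hv

/-- Points of degree `r` with bounded counting function: the norms are `T`-units. -/
theorem units (S : Finset (Pl k)) {n q : ℕ} (r : ℕ) (ℓ : Fin q → Fin (n + 1) → k) (C : ℝ) (i₀ : Fin q) :
    ∃ T : Finset (FinitePlace k), ∀ y : Fin n → AlgebraicClosure k, dg y = r →
      (∀ i, ∑ j, algebraMap k (fld y) (ℓ i j) * crd y j ≠ 0) → q * hgt y - C ≤ lam ℓ S y →
      ∃ (x : Fin r → Fin (n + 1) → AlgebraicClosure k) (s₀ : Fin r) (c : AlgebraicClosure k), c ≠ 0 ∧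
        (∀ j, x s₀ j = c * (Fin.cons 1 y : Fin (n + 1) → AlgebraicClosure k) j) ∧
        (∀ s, ∑ j, algebraMap k (AlgebraicClosure k) (ℓ i₀ j) * x s j = 1) ∧
        (∀ i, TUnit T (∏ s, ∑ j, algebraMap k (AlgebraicClosure k) (ℓ i j) * x s j)) ∧
        ∀ (s : Fin r) (d : ℕ) (f : MvPolynomial (Fin (n + 1)) k), f.IsHomogeneous d →
          MvPolynomial.aeval (Fin.cons 1 y : Fin (n + 1) → AlgebraicClosure k) f = 0 →
            MvPolynomial.aeval (x s) f = 0 := by
  classical
  obtain ⟨N, hN, hmain⟩ := main_ineq S r ℓ C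
  have hfin : (Function.mulSupport fun v : FinitePlace k => v (N : k)).Finite :=
    FinitePlace.hasFiniteMulSupport (by exact_mod_cast hN)
  refine ⟨hfin.toFinset, fun y hdg hne hy => ?_⟩
  have hfd : FiniteDimensional k (fld y) :=
    finiteDimensional_adjoin fun x _ => Algebra.IsIntegral.isIntegral x
  have hv1 : ∀ v : FinitePlace k, v ∉ hfin.toFinset → v (N : k) = 1 := by
    intro v hv
    by_contra h
    exact hv (hfin.mem_toFinset.mpr h)
  set x := crd y with hx
  set t : Fin q → fld y := fun i => ev (cst (ℓ i)) x with ht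
  have ht0 : ∀ i, t i ≠ 0 := hne
  have hsx : ∀ w : FinitePlace (fld y), 0 < sn (.inr w) x := fun w => sn_pos _ (crd_ne y)
  have hty : ∀ i (w : FinitePlace (fld y)), w (N : fld y) = 1 → w (t i) = sn (.inr w) x := fun i w hw =>
    hmain y hdg.le hne hy w hw i
  have htt : ∀ i i', TI N (t i' / t i) := fun i i' => TI_of_places _ fun w hw => by
    rw [map_div₀, hty i w hw, hty i' w hw, div_self (hsx w).ne']
  -- the embeddings
  have hcard : Fintype.card (fld y →ₐ[k] AlgebraicClosure k) = r := by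
    rw [AlgHom.card, ← hdg]
    rfl
  let e : Fin r ≃ (fld y →ₐ[k] AlgebraicClosure k) := (Fintype.equivFinOfCardEq hcard).symm
  let φ : fld y →ₐ[k] AlgebraicClosure k := (fld y).val
  have hlin : ∀ (σ : fld y →ₐ[k] AlgebraicClosure k) (i : Fin q),
      ∑ j, algebraMap k (AlgebraicClosure k) (ℓ i j) * σ (x j / t i₀) = σ (t i / t i₀) := by
    intro σ i
    have h1 : t i / t i₀ = ∑ j, algebraMap k (fld y) (ℓ i j) * (x j / t i₀) := by
      simp only [ht, ev, cst, Finset.sum_div, mul_div_assoc]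
    rw [h1, map_sum]
    exact Finset.sum_congr rfl fun j _ => by rw [map_mul, AlgHom.commutes]
  refine ⟨fun s j => e s (x j / t i₀), e.symm φ, φ (t i₀)⁻¹, ?_, ?_, ?_, ?_, ?_⟩
  · rw [Ne, map_eq_zero_iff φ φ.injective]
    exact inv_ne_zero (ht0 i₀)
  · intro j
    show e (e.symm φ) (x j / t i₀) = _
    rw [Equiv.apply_symm_apply, div_eq_mul_inv, map_mul, mul_comm]
    congr 1
    refine Fin.cases ?_ (fun j => ?_) j
    · rw [Fin.cons_zero]
      show φ (crd y 0) = 1
      have : crd y 0 = 1 := rfl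
      rw [this, map_one]
    · rfl
  · intro s
    show ∑ j, algebraMap k (AlgebraicClosure k) (ℓ i₀ j) * e s (x j / t i₀) = 1
    rw [hlin, div_self (ht0 i₀), map_one]
  · intro i
    have h1 : ∏ s, ∑ j, algebraMap k (AlgebraicClosure k) (ℓ i j) * e s (x j / t i₀) =
        algebraMap k (AlgebraicClosure k) (Algebra.norm k (t i / t i₀)) := by
      rw [Algebra.norm_eq_prod_embeddings k (AlgebraicClosure k) (t i / t i₀)]
      rw [← Equiv.prod_comp e]
      exact Finset.prod_congr rfl fun s _ => hlin _ _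
    have h2 := norm_le (k := k) (htt i₀ i)
    have h3 := norm_le (k := k) (htt i i₀)
    have h4 : Algebra.norm k (t i / t i₀) * Algebra.norm k (t i₀ / t i) = 1 := by
      rw [← map_mul]
      have : t i / t i₀ * (t i₀ / t i) = 1 := by
        have h5 := ht0 i
        have h6 := ht0 i₀
        field_simp
      rw [this, map_one]
    refine ⟨Algebra.norm k (t i / t i₀), h1.symm, left_ne_zero_of_mul_eq_one h4, fun v hv => ?_⟩
    have h5 := h2 v (hv1 v hv)
    have h6 := h3 v (hv1 v hv)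
    have h7 : v (Algebra.norm k (t i / t i₀)) * v (Algebra.norm k (t i₀ / t i)) = 1 := by
      rw [← map_mul, h4, map_one]
    have h8 : 0 ≤ v (Algebra.norm k (t i / t i₀)) := apply_nonneg v _
    have h9 : 0 ≤ v (Algebra.norm k (t i₀ / t i)) := apply_nonneg v _
    nlinarith
  · intro s d f hf h0
    have hφ : (Fin.cons 1 y : Fin (n + 1) → AlgebraicClosure k) = fun j => φ (x j) := by
      funext j
      refine Fin.cases ?_ (fun j => ?_) j
      · rw [Fin.cons_zero]
        show _ = φ (crd y 0)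
        have : crd y 0 = 1 := rfl
        rw [this, map_one]
      · rfl
    have h1 : MvPolynomial.aeval x f = 0 := by
      rw [hφ, ← MvPolynomial.comp_aeval_apply] at h0
      exact (map_eq_zero_iff φ φ.injective).mp h0
    show MvPolynomial.aeval (fun j => e s (x j / t i₀)) f = 0
    rw [← MvPolynomial.comp_aeval_apply]
    have h2 : (fun j => x j / t i₀) = fun j => (t i₀)⁻¹ * x j := by
      funext j
      rw [div_eq_mul_inv, mul_comm]
    rw [h2, Pool.Agent.Helper64.GS.aeval_scale hf, h1, mul_zero, map_zero]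

end Pool.Agent.Helper64.GH
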